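import Mathlib
import Pool.Agent.H3.Tad

set_option autoImplicit false

namespace Pool.Agent.Results.MP_5d3fca_co.TwoThirds

theorem result (n : ℕ) (hn : 1 ≤ n) (a : ℕ → ℕ → ℤ) (M : ℤ)
    (hrule : ∀ i j, 1 ≤ i → 1 ≤ j → i + j ≤ n → a (i + 1) j = |a i j - a i (j + 1)|)
    (hpos : ∀ i j, 1 ≤ i → 1 ≤ j → i + j ≤ n + 1 → 0 < a i j)
    (hinj : ∀ i j i' j', 1 ≤ i → 1 ≤ j → i + j ≤ n + 1 → 1 ≤ i' → 1 ≤ j' → i' + j' ≤ n + 1 →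
      a i j = a i' j' → i = i' ∧ j = j')
    (hM : ∀ i j, 1 ≤ i → 1 ≤ j → i + j ≤ n + 1 → a i j ≤ M) :
    ((n : ℤ) - 1) * (2 * n - 3) ≤ 3 * M :=
  Pool.Agent.H3.Tad.bound hrule hn hpos hinj fun j h1 h2 => hM 1 j le_rfl h1 (by omega)

end Pool.Agent.Results.MP_5d3fca_co.TwoThirds
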